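import Pool.Agent.Lib.MP_d8403e_co.Main

/-!
# Both parts of the divot statement for difference sets are false

Part (a) fails at `k = 13`: for all large `n` the sequence `P_{n,H}` has no divot at
`159 = 13 * 12 + 3`.  Part (b) fails: for every `P ≥ 7` (so for instance at `41 = 7 * 6 - 1`) the
sequence `P_{n,H}` has a divot at `P (P - 1) - 1` for all large `n`, and this number is never of
the form `k (k - 1) + 3`.
-/

namespace Pool.Agent.Results.MP_d8403e_co.BothPartsFail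

open Pool.Agent.Lib.MP_d8403e_co

theorem result :
    (¬ ∀ k : ℕ, 2 ≤ k → ∃ N : ℕ, ∀ n ≥ N, HasDivot (prob n) (k * (k - 1) + 3)) ∧
    (¬ ∃ N : ℕ, ∀ n ≥ N, ∀ i : ℕ, HasDivot (prob n) i → ∃ k : ℕ, 2 ≤ k ∧ i = k * (k - 1) + 3) ∧
    (∃ N : ℕ, ∀ n ≥ N, ¬ HasDivot (prob n) (13 * (13 - 1) + 3)) ∧
    (∀ P : ℕ, 7 ≤ P → (∃ N : ℕ, ∀ n ≥ N, HasDivot (prob n) (P * (P - 1) - 1)) ∧
      ∀ k : ℕ, P * (P - 1) - 1 ≠ k * (k - 1) + 3) :=
  ⟨main.2.2.1, main.2.2.2, main.1, fun P hP => ⟨main.2.1 P hP, not_form P hP⟩⟩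

end Pool.Agent.Results.MP_d8403e_co.BothPartsFail
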